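import Mathlib

set_option autoImplicit false

/-!
# Rational factorization of tropical polynomials in `n` variables

Every tropical polynomial `f` in `n` variables satisfies `f ⊙ g = h` where `g` and `h` are tropical
products of units (tropical polynomials with trivial regular subdivision). The units can be taken
among the sub-polynomials of `f` with affinely independent exponents.
-/

namespace Pool.Agent.Results.MP_b8ee47_co.RationalFactorization

open Finset

/-- A max-plus polynomial in `n` variables: a finite nonempty set of exponents in `ℕ^n`, and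
coefficients. -/
structure TropicalPolynomial (n : ℕ) where
  supp : Finset (Fin n → ℕ)
  nonempty : supp.Nonempty
  coeff : (Fin n → ℕ) → ℝ

namespace TropicalPolynomial

variable {n : ℕ}

/-- The term `c_a + a · x`. -/
def term (f : TropicalPolynomial n) (x : Fin n → ℝ) (a : Fin n → ℕ) : ℝ :=
  f.coeff a + ∑ i, (a i : ℝ) * x i

/-- The function `x ↦ max_{a ∈ A} (c_a + a · x)`. -/
noncomputable def eval (f : TropicalPolynomial n) (x : Fin n → ℝ) : ℝ :=
  f.supp.sup' f.nonempty (f.term x)

/-- The exponent `a` as a point of `ℝ^n`. -/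
def pt (a : Fin n → ℕ) : Fin n → ℝ := fun i => (a i : ℝ)

/-- The Newton polytope. -/
def newton (f : TropicalPolynomial n) : Set (Fin n → ℝ) :=
  convexHull ℝ (pt '' (f.supp : Set (Fin n → ℕ)))

/-- The cell of the regular subdivision selected by `x`: the convex hull of the exponents `a` at
which `c_a + a · x` is maximal, that is, the projection of the face of
`conv {(a, - c_a) : a ∈ A}` on which the functional `(y, t) ↦ t - y · x` is minimal. -/
def cell (f : TropicalPolynomial n) (x : Fin n → ℝ) : Set (Fin n → ℝ) :=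
  convexHull ℝ (pt '' {a | a ∈ f.supp ∧ f.term x a = f.eval x})

/-- The regular subdivision `Δ_f` of the Newton polytope: the projections of the lower faces of
`conv {(a, - c_a) : a ∈ A}`. -/
def subdivision (f : TropicalPolynomial n) : Set (Set (Fin n → ℝ)) := Set.range f.cell

/-- Units: the subdivision is trivial, its only maximal cell is the Newton polytope. -/
def IsTropicalUnit (f : TropicalPolynomial n) : Prop := f.newton ∈ f.subdivision

end TropicalPolynomial

open TropicalPolynomial

variable {n : ℕ}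

/-- the maximum of `ℓ` over `S`, zero for the empty set -/
noncomputable def mx (ℓ : (Fin n → ℕ) → ℝ) (S : Finset (Fin n → ℕ)) : ℝ :=
  if h : S.Nonempty then S.sup' h ℓ else 0

/-- the main identity -/
theorem alt_sum (ℓ : (Fin n → ℕ) → ℝ) (P M : Finset (Fin n → ℕ))
    (h : ∃ a ∈ P, ∃ b ∈ M, ℓ a ≤ ℓ b) :
    ∑ S ∈ P.powerset, (-1 : ℝ) ^ S.card * mx ℓ (S ∪ M) = 0 := by
  obtain ⟨a, ha, b, hb, hab⟩ := h
  refine Finset.sum_involution (fun S _ => if a ∈ S then S.erase a else insert a S) ?_ ?_ ?_ ?_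
  · intro S hS
    have key : ∀ S : Finset (Fin n → ℕ), a ∉ S → mx ℓ (insert a S ∪ M) = mx ℓ (S ∪ M) := by
      intro S _
      have h1 : (S ∪ M).Nonempty := ⟨b, mem_union_right _ hb⟩
      have h2 : (insert a S ∪ M).Nonempty := ⟨b, mem_union_right _ hb⟩
      unfold mx
      rw [dif_pos h1, dif_pos h2]
      apply le_antisymm
      · apply Finset.sup'_le
        intro c hc
        rw [mem_union, mem_insert] at hc
        rcases hc with (rfl | hc) | hc
        · exact hab.trans (Finset.le_sup' ℓ (mem_union_right _ hb))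
        · exact Finset.le_sup' ℓ (mem_union_left _ hc)
        · exact Finset.le_sup' ℓ (mem_union_right _ hc)
      · apply Finset.sup'_le
        intro c hc
        rw [mem_union] at hc
        rcases hc with hc | hc
        · exact Finset.le_sup' ℓ (mem_union_left _ (mem_insert_of_mem hc))
        · exact Finset.le_sup' ℓ (mem_union_right _ hc)
    by_cases haS : a ∈ S
    · rw [if_pos haS]
      have h1 := key (S.erase a) (notMem_erase a S)
      rw [insert_erase haS] at h1
      rw [h1, card_erase_of_mem haS]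
      have h2 : S.card = (S.card - 1) + 1 := by
        have := card_pos.2 ⟨a, haS⟩
        omega
      rw [show (-1 : ℝ) ^ S.card = (-1) ^ ((S.card - 1) + 1) by rw [← h2], pow_succ]
      ring
    · rw [if_neg haS, key S haS, card_insert_of_notMem haS, pow_succ]
      ring
  · intro S hS _ h1
    by_cases haS : a ∈ S
    · rw [if_pos haS] at h1
      have h2 := notMem_erase a S
      rw [h1] at h2
      exact h2 haS
    · rw [if_neg haS] at h1
      exact haS (h1 ▸ mem_insert_self a S)
  · intro S hS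
    rw [mem_powerset] at hS ⊢
    by_cases haS : a ∈ S
    · rw [if_pos haS]
      exact (erase_subset _ _).trans hS
    · rw [if_neg haS]
      exact insert_subset ha hS
  · intro S hS
    by_cases haS : a ∈ S
    · simp only [if_pos haS, notMem_erase, if_false, insert_erase haS]
    · simp only [if_neg haS, mem_insert_self, if_true, erase_insert haS]

/-- the terms over the exponents with positive coefficient of an affine dependency cannot all be
larger than the other terms, if the sign is chosen suitably -/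
theorem exists_le (f : TropicalPolynomial n) (A : Finset (Fin n → ℕ)) (w : (Fin n → ℕ) → ℝ)
    (h0 : ∑ a ∈ A, w a = 0) (h1 : ∀ i, ∑ a ∈ A, w a * (a i : ℝ) = 0)
    (hs : ∑ a ∈ A, w a * f.coeff a ≤ 0) (hne : ∃ a ∈ A, w a ≠ 0) (x : Fin n → ℝ) :
    ∃ a ∈ A.filter (fun a => 0 < w a), ∃ b ∈ A.filter (fun a => ¬ 0 < w a),
      f.term x a ≤ f.term x b := by
  by_contra hcon'
  have hcon : ∀ a ∈ A.filter (fun a => 0 < w a), ∀ b ∈ A.filter (fun a => ¬ 0 < w a),
      f.term x b < f.term x a := fun a ha b hb => not_le.1 fun h => hcon' ⟨a, ha, b, hb, h⟩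
  have hP : ∃ a ∈ A, 0 < w a := by
    by_contra hc
    push Not at hc
    obtain ⟨a, ha, hwa⟩ := hne
    exact hwa ((Finset.sum_eq_zero_iff_of_nonpos hc).1 h0 a ha)
  have hM : ∃ a ∈ A, w a < 0 := by
    by_contra hc
    push Not at hc
    obtain ⟨a, ha, hwa⟩ := hne
    exact hwa ((Finset.sum_eq_zero_iff_of_nonneg hc).1 h0 a ha)
  obtain ⟨b1, hb1, hwb1⟩ := hM
  have hMne : (A.filter (fun a => ¬ 0 < w a)).Nonempty :=
    ⟨b1, mem_filter.2 ⟨hb1, not_lt.2 hwb1.le⟩⟩
  obtain ⟨b, hb, hbmax⟩ := Finset.exists_max_image (A.filter (fun a => ¬ 0 < w a)) (f.term x) hMne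
  have e1 : ∑ a ∈ A, w a * (f.term x a - f.term x b) = ∑ a ∈ A, w a * f.coeff a := by
    have e2 : ∀ a, w a * (f.term x a - f.term x b) = w a * f.coeff a +
        ∑ i, (w a * (a i : ℝ)) * x i - w a * f.term x b := by
      intro a
      unfold TropicalPolynomial.term
      rw [mul_sub, mul_add, mul_sum]
      congr 2
      exact sum_congr rfl fun i _ => by ring
    simp only [e2]
    rw [sum_sub_distrib, sum_add_distrib, ← sum_mul, h0, sum_comm]
    have e3 : ∑ i, ∑ a ∈ A, (w a * (a i : ℝ)) * x i = 0 := by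
      refine sum_eq_zero fun i _ => ?_
      rw [← sum_mul, h1, zero_mul]
    rw [e3]
    ring
  have e4 : 0 < ∑ a ∈ A, w a * (f.term x a - f.term x b) := by
    refine sum_pos' ?_ ?_
    · intro a ha
      by_cases hw : 0 < w a
      · exact mul_nonneg hw.le (sub_nonneg.2 (hcon a (mem_filter.2 ⟨ha, hw⟩) b hb).le)
      · exact mul_nonneg_of_nonpos_of_nonpos (not_lt.1 hw)
          (sub_nonpos.2 (hbmax a (mem_filter.2 ⟨ha, hw⟩)))
    · obtain ⟨a, ha, hw⟩ := hP
      exact ⟨a, ha, mul_pos hw (sub_pos.2 (hcon a (mem_filter.2 ⟨ha, hw⟩) b hb))⟩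
  rw [e1] at e4
  exact absurd hs (not_le.2 e4)

/-- the sets of exponents allowed for the units -/
def Ok (f : TropicalPolynomial n) (S : Finset (Fin n → ℕ)) : Prop :=
  S.Nonempty ∧ S ⊆ f.supp ∧ AffineIndependent ℝ (fun a : S => pt a.1)

/-- quotients of products of sub-polynomials with affinely independent exponents -/
def Q (f : TropicalPolynomial n) (F : (Fin n → ℝ) → ℝ) : Prop :=
  ∃ G H : List (Finset (Fin n → ℕ)), (∀ S ∈ G, Ok f S) ∧ (∀ S ∈ H, Ok f S) ∧
    ∀ x, F x + (G.map (fun S => mx (f.term x) S)).sum = (H.map (fun S => mx (f.term x) S)).sum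

theorem Q.zero (f : TropicalPolynomial n) : Q f (fun _ => 0) :=
  ⟨[], [], by simp, by simp, by simp⟩

theorem Q.add {f : TropicalPolynomial n} {F F' : (Fin n → ℝ) → ℝ} (h : Q f F) (h' : Q f F') :
    Q f (fun x => F x + F' x) := by
  obtain ⟨G, H, h1, h2, h3⟩ := h
  obtain ⟨G', H', h1', h2', h3'⟩ := h'
  refine ⟨G ++ G', H ++ H', ?_, ?_, fun x => ?_⟩
  · intro S hS
    rcases List.mem_append.1 hS with hS | hS
    · exact h1 S hS
    · exact h1' S hS
  · intro S hS
    rcases List.mem_append.1 hS with hS | hS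
    · exact h2 S hS
    · exact h2' S hS
  · rw [List.map_append, List.map_append, List.sum_append, List.sum_append, ← h3, ← h3']
    ring

theorem Q.neg {f : TropicalPolynomial n} {F : (Fin n → ℝ) → ℝ} (h : Q f F) :
    Q f (fun x => - F x) := by
  obtain ⟨G, H, h1, h2, h3⟩ := h
  refine ⟨H, G, h2, h1, fun x => ?_⟩
  rw [← h3]
  ring

theorem Q.sum {f : TropicalPolynomial n} {ι : Type} (s : Finset ι)
    (F : ι → (Fin n → ℝ) → ℝ) (h : ∀ i ∈ s, Q f (F i)) : Q f (fun x => ∑ i ∈ s, F i x) := by
  classical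
  induction s using Finset.induction_on with
  | empty => simpa using Q.zero f
  | insert a s ha ih =>
    simp only [Finset.sum_insert ha]
    exact (h a (mem_insert_self _ _)).add (ih fun i hi => h i (mem_insert_of_mem hi))

theorem Q.sign {f : TropicalPolynomial n} {F : (Fin n → ℝ) → ℝ} (h : Q f F) (k : ℕ) :
    Q f (fun x => (-1 : ℝ) ^ k * F x) := by
  rcases Nat.even_or_odd k with hk | hk
  · simpa only [hk.neg_one_pow, one_mul] using h
  · simpa only [hk.neg_one_pow, neg_one_mul] using h.neg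

/-- an affine dependency of the exponents in `A` reduces the maximum over `A` -/
theorem Q.step {f : TropicalPolynomial n} (A : Finset (Fin n → ℕ)) (w : (Fin n → ℕ) → ℝ)
    (ih : ∀ B, B ⊂ A → B.Nonempty → Q f (fun x => mx (f.term x) B))
    (h0 : ∑ a ∈ A, w a = 0) (h1 : ∀ i, ∑ a ∈ A, w a * (a i : ℝ) = 0)
    (hs : ∑ a ∈ A, w a * f.coeff a ≤ 0) (hne : ∃ a ∈ A, w a ≠ 0) :
    Q f (fun x => mx (f.term x) A) := by
  set P := A.filter (fun a => 0 < w a) with hP
  set M := A.filter (fun a => ¬ 0 < w a) with hM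
  have hPM : P ∪ M = A := filter_union_filter_not_eq _ A
  have hdis : Disjoint P M := disjoint_filter_filter_not _ _ _
  have hle := exists_le f A w h0 h1 hs hne
  obtain ⟨a0, ha0, b0, hb0, -⟩ := hle 0
  have e1 : ∀ x, mx (f.term x) A = ∑ S ∈ P.ssubsets,
      (-1 : ℝ) ^ (P.card + 1 + S.card) * mx (f.term x) (S ∪ M) := by
    intro x
    have h2 := alt_sum (f.term x) P M (hle x)
    have h3 : P.powerset = insert P P.ssubsets := by
      ext S
      rw [mem_powerset, mem_insert, mem_ssubsets]
      exact ⟨fun h => h.eq_or_ssubset, fun h => h.elim (fun h => h.le) (fun h => h.1)⟩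
    have h4 : P ∉ P.ssubsets := fun h => (mem_ssubsets.1 h).ne rfl
    rw [h3, sum_insert h4, hPM] at h2
    have h5 : (-1 : ℝ) ^ P.card * (-1 : ℝ) ^ P.card = 1 := by
      rw [← pow_add, ← two_mul, pow_mul]
      norm_num
    have h6 : mx (f.term x) A = -(-1 : ℝ) ^ P.card *
        ∑ S ∈ P.ssubsets, (-1 : ℝ) ^ S.card * mx (f.term x) (S ∪ M) := by
      have : mx (f.term x) A = ((-1 : ℝ) ^ P.card * (-1 : ℝ) ^ P.card) * mx (f.term x) A := by
        rw [h5, one_mul]
      rw [this, mul_assoc]
      linear_combination ((-1 : ℝ) ^ P.card) * h2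
    rw [h6, mul_sum]
    refine sum_congr rfl fun S _ => ?_
    rw [pow_add, pow_add]
    ring
  have e2 : (fun x => mx (f.term x) A) = fun x => ∑ S ∈ P.ssubsets,
      (-1 : ℝ) ^ (P.card + 1 + S.card) * mx (f.term x) (S ∪ M) := funext e1
  rw [e2]
  refine Q.sum P.ssubsets _ fun S hS => ?_
  refine Q.sign (ih (S ∪ M) ?_ ⟨b0, mem_union_right _ hb0⟩) _
  have hSP := mem_ssubsets.1 hS
  refine ⟨?_, fun h => hSP.2 fun a ha => ?_⟩
  · exact union_subset (hSP.1.trans (filter_subset _ _)) (filter_subset _ _)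
  · rcases mem_union.1 (h (filter_subset _ _ ha)) with h | h
    · exact h
    · exact absurd h (disjoint_left.1 hdis ha)

/-- all sub-polynomials are quotients -/
theorem Q.all (f : TropicalPolynomial n) (A : Finset (Fin n → ℕ)) :
    A.Nonempty → A ⊆ f.supp → Q f (fun x => mx (f.term x) A) := by
  classical
  induction A using Finset.strongInduction with
  | H A ih =>
  intro hA hsub
  by_cases haff : AffineIndependent ℝ (fun a : A => pt a.1)
  · exact ⟨[], [A], by simp, by simpa using ⟨hA, hsub, haff⟩, by simp⟩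
  rw [affineIndependent_iff] at haff
  push Not at haff
  obtain ⟨s, w, hw0, hw1, e, he, hwe⟩ := haff
  let v : (Fin n → ℕ) → ℝ := fun a => if h : a ∈ A then (if ⟨a, h⟩ ∈ s then w ⟨a, h⟩ else 0) else 0
  have hv : ∀ g : (Fin n → ℕ) → ℝ, ∑ a ∈ A, v a * g a = ∑ e ∈ s, w e * g e.1 := by
    intro g
    rw [← sum_attach]
    have h1 : ∀ e ∈ A.attach, v e.1 * g e.1 = if e ∈ s then w e * g e.1 else 0 := by
      intro e _
      show (if h : e.1 ∈ A then (if (⟨e.1, h⟩ : A) ∈ s then w ⟨e.1, h⟩ else 0) else 0) * g e.1 = _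
      rw [dif_pos e.2]
      split_ifs <;> simp
    rw [sum_congr rfl h1, ← sum_filter]
    congr 1
    ext e
    simp
  have hv0 : ∑ a ∈ A, v a = 0 := by
    have := hv (fun _ => 1)
    simp only [mul_one] at this
    rw [this, hw0]
  have hv1 : ∀ i, ∑ a ∈ A, v a * (a i : ℝ) = 0 := by
    intro i
    rw [hv (fun a => (a i : ℝ))]
    have := congrFun hw1 i
    simpa [pt, Finset.sum_apply] using this
  have hve : ∃ a ∈ A, v a ≠ 0 := by
    refine ⟨e.1, e.2, ?_⟩
    show (if h : e.1 ∈ A then (if (⟨e.1, h⟩ : A) ∈ s then w ⟨e.1, h⟩ else 0) else 0) ≠ 0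
    rw [dif_pos e.2, if_pos he]
    exact hwe
  have ih' : ∀ B, B ⊂ A → B.Nonempty → Q f (fun x => mx (f.term x) B) :=
    fun B hB hne => ih B hB hne (hB.1.trans hsub)
  rcases le_total (∑ a ∈ A, v a * f.coeff a) 0 with hs | hs
  · exact Q.step A v ih' hv0 hv1 hs hve
  · refine Q.step A (fun a => - v a) ih' ?_ ?_ ?_ ?_
    · rw [sum_neg_distrib, hv0, neg_zero]
    · intro i
      simp only [neg_mul, sum_neg_distrib, hv1, neg_zero]
    · simp only [neg_mul, sum_neg_distrib]
      exact neg_nonpos.2 hs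
    · obtain ⟨a, ha, h⟩ := hve
      exact ⟨a, ha, neg_ne_zero.2 h⟩

/-- linear extension from a linearly independent family -/
theorem ext_lin {ι E : Type} [AddCommGroup E] [Module ℝ E] (v : ι → E)
    (hli : LinearIndependent ℝ v) (y : ι → ℝ) : ∃ φ : E →ₗ[ℝ] ℝ, ∀ i, φ (v i) = y i := by
  obtain ⟨g, hg⟩ := LinearMap.exists_extend ((Module.Basis.span hli).constr ℝ y)
  refine ⟨g, fun i => ?_⟩
  have h1 := LinearMap.congr_fun hg (Module.Basis.span hli i)
  rw [Module.Basis.constr_basis] at h1
  rw [← h1]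
  show g (v i) = g ((Module.Basis.span hli i : Submodule.span ℝ (Set.range v)) : E)
  rw [Module.Basis.span_apply]

/-- sub-polynomials with affinely independent exponents are units -/
theorem unit_of_ok {f : TropicalPolynomial n} {S : Finset (Fin n → ℕ)} (h : Ok f S) :
    IsTropicalUnit ⟨S, h.1, f.coeff⟩ := by
  obtain ⟨a1, ha1⟩ := h.1
  have h1 := (affineIndependent_iff_linearIndependent_vsub ℝ _ (⟨a1, ha1⟩ : S)).1 h.2.2
  obtain ⟨φ, hφ⟩ := ext_lin _ h1 (fun a => f.coeff a1 - f.coeff a.1.1)
  let x : Fin n → ℝ := fun i => φ (fun j => if i = j then 1 else 0)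
  have hx : ∀ a : Fin n → ℕ, φ (pt a) = ∑ i, (a i : ℝ) * x i := by
    intro a
    rw [LinearMap.pi_apply_eq_sum_univ φ (pt a)]
    rfl
  set u : TropicalPolynomial n := ⟨S, h.1, f.coeff⟩ with hu
  have hterm : ∀ a ∈ S, u.term x a = u.term x a1 := by
    intro a ha
    by_cases haa : a = a1
    · rw [haa]
    have h2 := hφ ⟨⟨a, ha⟩, fun h => haa (congrArg Subtype.val h)⟩
    simp only [vsub_eq_sub, map_sub, hx] at h2
    show f.coeff a + ∑ i, (a i : ℝ) * x i = f.coeff a1 + ∑ i, (a1 i : ℝ) * x i
    linarith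
  have heval : u.eval x = u.term x a1 := by
    apply le_antisymm
    · exact Finset.sup'_le _ _ fun a ha => (hterm a ha).le
    · exact Finset.le_sup' (u.term x) ha1
  refine ⟨x, ?_⟩
  unfold TropicalPolynomial.cell TropicalPolynomial.newton
  congr 2
  ext a
  constructor
  · rintro ⟨h2, -⟩
    exact h2
  · intro h2
    exact ⟨h2, by rw [heval, hterm a h2]⟩

theorem mx_eq_eval {f : TropicalPolynomial n} {S : Finset (Fin n → ℕ)} (hS : S.Nonempty)
    (x : Fin n → ℝ) : mx (f.term x) S = TropicalPolynomial.eval ⟨S, hS, f.coeff⟩ x := by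
  unfold mx TropicalPolynomial.eval
  rw [dif_pos hS]
  rfl

/-- lists of allowed sets give lists of units -/
theorem units_of {f : TropicalPolynomial n} (G : List (Finset (Fin n → ℕ)))
    (hG : ∀ S ∈ G, Ok f S) : ∃ g : List (TropicalPolynomial n), g.length = G.length ∧
      (∀ u ∈ g, u.IsTropicalUnit ∧ u.supp ⊆ f.supp ∧ (∀ a ∈ u.supp, u.coeff a = f.coeff a) ∧
        AffineIndependent ℝ (fun a : u.supp => pt a.1)) ∧
      ∀ x, (g.map fun u => u.eval x).sum = (G.map (fun S => mx (f.term x) S)).sum := by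
  induction G with
  | nil => exact ⟨[], rfl, by simp, by simp⟩
  | cons S G ih =>
    obtain ⟨g, h0, h1, h2⟩ := ih fun T hT => hG T (List.mem_cons_of_mem _ hT)
    have hS := hG S List.mem_cons_self
    refine ⟨⟨S, hS.1, f.coeff⟩ :: g, by rw [List.length_cons, List.length_cons, h0], ?_,
      fun x => ?_⟩
    · intro u hu
      rcases List.mem_cons.1 hu with rfl | hu
      · exact ⟨unit_of_ok hS, hS.2.1, fun _ _ => rfl, hS.2.2⟩
      · exact h1 u hu
    · rw [List.map_cons, List.sum_cons, List.map_cons, List.sum_cons, h2 x, mx_eq_eval hS.1]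

/-- Every tropical polynomial in `n` variables is rationally factorizable: `f ⊙ g = h` (as
functions) with `g` and `h` tropical products of units. Moreover the units can be chosen among the
maxima of terms of `f` with affinely independent exponents. -/
theorem result : ∀ (n : ℕ) (f : TropicalPolynomial n), ∃ g h : List (TropicalPolynomial n),
    g ≠ [] ∧ h ≠ [] ∧
    (∀ u, u ∈ g ∨ u ∈ h → u.IsTropicalUnit ∧ u.supp ⊆ f.supp ∧
      (∀ a ∈ u.supp, u.coeff a = f.coeff a) ∧ AffineIndependent ℝ (fun a : u.supp => pt a.1)) ∧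
    ∀ x : Fin n → ℝ, f.eval x + (g.map fun u => u.eval x).sum = (h.map fun u => u.eval x).sum := by
  intro n f
  obtain ⟨G, H, h1, h2, h3⟩ := Q.all f f.supp f.nonempty subset_rfl
  obtain ⟨a, ha⟩ := f.nonempty
  have hok : Ok f {a} := by
    refine ⟨singleton_nonempty a, singleton_subset_iff.2 ha, ?_⟩
    have : Subsingleton ({a} : Finset (Fin n → ℕ)) :=
      ⟨fun u v => Subtype.ext ((mem_singleton.1 u.2).trans (mem_singleton.1 v.2).symm)⟩
    exact affineIndependent_of_subsingleton ℝ _
  obtain ⟨g, hg0, hg1, hg2⟩ := units_of ({a} :: G) (by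
    intro S hS
    rcases List.mem_cons.1 hS with rfl | hS
    · exact hok
    · exact h1 S hS)
  obtain ⟨h, hh0, hh1, hh2⟩ := units_of ({a} :: H) (by
    intro S hS
    rcases List.mem_cons.1 hS with rfl | hS
    · exact hok
    · exact h2 S hS)
  refine ⟨g, h, ?_, ?_, ?_, fun x => ?_⟩
  · rintro rfl
    simp at hg0
  · rintro rfl
    simp at hh0
  · rintro u (hu | hu)
    · exact hg1 u hu
    · exact hh1 u hu
  · have h4 := h3 x
    have h5 : f.eval x = mx (f.term x) f.supp := (mx_eq_eval f.nonempty x).symm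
    rw [hg2 x, hh2 x, List.map_cons, List.sum_cons, List.map_cons, List.sum_cons, h5, ← h4]
    ring

end Pool.Agent.Results.MP_b8ee47_co.RationalFactorization
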